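import Mathlib

namespace Pool.Agent.X194.ST

open Topology Filter

universe v

/-- A continuous surjective homomorphism `f : G → H` of topological groups is *semitopological*
if `G` embeds (as a topological group) as a normal subgroup of a topological group `E` and there
is an open continuous homomorphism `F : E → H` extending `f`. -/
def IsSemitopological {G H : Type} [Group G] [Group H] [TopologicalSpace G]
    [TopologicalSpace H] (f : G →* H) : Prop :=
  Continuous f ∧ Function.Surjective f ∧
  ∃ (E : Type v) (_ : Group E) (_ : TopologicalSpace E) (_ : IsTopologicalGroup E)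
    (i : G →* E) (F : E →* H),
    IsEmbedding i ∧ i.range.Normal ∧ Continuous F ∧ IsOpenMap F ∧ ∀ g, F (i g) = f g

/-- the same group with the discrete topology -/
def Disc (K : Type) : Type := K

instance (K : Type) [Group K] : Group (Disc K) := inferInstanceAs (Group K)
instance (K : Type) : TopologicalSpace (Disc K) := ⊥
instance (K : Type) : DiscreteTopology (Disc K) := ⟨rfl⟩

/-- the identity homomorphism from the discrete copy -/
def discId (K : Type) [Group K] : Disc K →* K := MonoidHom.id K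

/-- the inverse of `discId` -/
def toD (K : Type) [Group K] : K →* Disc K := MonoidHom.id K

/-! ### the identity `Disc K → K` is semitopological when all centralizers are open -/

/-- the ambient group -/
def EE (K : Type) : Type := K × K

instance (K : Type) [Group K] : Group (EE K) := inferInstanceAs (Group (K × K))

/-- coordinates of the ambient group -/
def psi (K : Type) [Group K] : EE K → Disc K × K := fun p => (toD K (p.1 * p.2⁻¹), p.2)

theorem psi_inj (K : Type) [Group K] : Function.Injective (psi K) := by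
  rintro ⟨a, b⟩ ⟨a', b'⟩ h
  have h1 : a * b⁻¹ = a' * b'⁻¹ := congrArg (fun q : Disc K × K => discId K q.1) h
  have h2 : b = b' := congrArg (fun q : Disc K × K => q.2) h
  rw [h2] at h1
  exact Prod.ext (mul_right_cancel h1) h2

theorem psi_surj (K : Type) [Group K] : Function.Surjective (psi K) := by
  rintro ⟨k, h⟩
  refine ⟨(discId K k * h, h), ?_⟩
  refine Prod.ext ?_ rfl
  show toD K (discId K k * h * h⁻¹) = k
  rw [mul_inv_cancel_right]
  rfl

instance (K : Type) [Group K] [TopologicalSpace K] : TopologicalSpace (EE K) :=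
  TopologicalSpace.induced (psi K) inferInstance

section

variable {K : Type} [Group K] [TopologicalSpace K]

theorem cont_psi : Continuous (psi K) := continuous_induced_dom

variable [IsTopologicalGroup K]

theorem conj_cont (hK : ∀ g : K, {x : K | x * g = g * x} ∈ 𝓝 (1 : K)) :
    Continuous (fun p : K × Disc K => toD K (p.1 * discId K p.2 * p.1⁻¹)) := by
  rw [continuous_prod_of_discrete_right]
  intro k
  rw [continuous_iff_continuousAt]
  intro h0
  rw [ContinuousAt, nhds_discrete (Disc K), tendsto_pure]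
  have h1 : Tendsto (fun h : K => h0⁻¹ * h) (𝓝 h0) (𝓝 1) := by
    have : Continuous (fun h : K => h0⁻¹ * h) := continuous_const.mul continuous_id
    have h2 := this.tendsto h0
    simpa using h2
  filter_upwards [h1 (hK (discId K k))] with h hh
  have hh' : h0⁻¹ * h * discId K k = discId K k * (h0⁻¹ * h) := hh
  have h3 : h * discId K k = h0 * discId K k * (h0⁻¹ * h) := by
    rw [mul_assoc h0, ← hh']
    group
  show toD K (h * discId K k * h⁻¹) = toD K (h0 * discId K k * h0⁻¹)
  rw [h3]
  congr 1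
  group

/-- first coordinate -/
def fs (p : EE K) : K := p.1

/-- second coordinate -/
def sn (p : EE K) : K := p.2

omit [IsTopologicalGroup K] in
theorem sn_cont : Continuous (fun p : EE K => sn p) := by
  have h : Continuous (fun p : EE K => (psi K p).2) := continuous_snd.comp cont_psi
  exact h

theorem EE_topGroup (hK : ∀ g : K, {x : K | x * g = g * x} ∈ 𝓝 (1 : K)) :
    IsTopologicalGroup (EE K) := by
  have hb : Continuous (fun p : EE K => sn p) := sn_cont
  have hk : Continuous (fun p : EE K => (psi K p).1) := continuous_fst.comp cont_psi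
  have hmulD : Continuous (fun p : Disc K × Disc K => p.1 * p.2) := continuous_of_discreteTopology
  have hinvD : Continuous (fun p : Disc K => p⁻¹) := continuous_of_discreteTopology
  refine { continuous_mul := ?_, continuous_inv := ?_ }
  · rw [continuous_induced_rng]
    have h1 : Continuous (fun p : EE K × EE K =>
        ((psi K p.1).1 * toD K (sn p.1 * discId K (psi K p.2).1 * (sn p.1)⁻¹) : Disc K)) := by
      have hb1 : Continuous (fun p : EE K × EE K => sn p.1) := hb.comp continuous_fst
      have hk1 : Continuous (fun p : EE K × EE K => (psi K p.1).1) := hk.comp continuous_fst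
      have hk2 : Continuous (fun p : EE K × EE K => (psi K p.2).1) := hk.comp continuous_snd
      have h3 : Continuous (fun p : EE K × EE K =>
        toD K (sn p.1 * discId K (psi K p.2).1 * (sn p.1)⁻¹)) :=
        (conj_cont hK).comp (hb1.prodMk hk2)
      exact hmulD.comp (hk1.prodMk h3)
    have hb1 : Continuous (fun p : EE K × EE K => sn p.1) := hb.comp continuous_fst
    have hb2 : Continuous (fun p : EE K × EE K => sn p.2) := hb.comp continuous_snd
    have h2 : Continuous (fun p : EE K × EE K => sn p.1 * sn p.2) := hb1.mul hb2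
    convert h1.prodMk h2 using 1
    funext p
    refine Prod.ext ?_ rfl
    show toD K ((fs p.1 * fs p.2) * (sn p.1 * sn p.2)⁻¹)
      = toD K ((fs p.1 * (sn p.1)⁻¹) * (sn p.1 * (fs p.2 * (sn p.2)⁻¹) * (sn p.1)⁻¹))
    congr 1
    group
  · rw [continuous_induced_rng]
    have h1 : Continuous (fun p : EE K =>
        toD K ((sn p)⁻¹ * discId K (((psi K p).1)⁻¹) * ((sn p)⁻¹)⁻¹)) := by
      exact (conj_cont hK).comp ((continuous_inv.comp hb).prodMk (hinvD.comp hk))
    convert h1.prodMk (continuous_inv.comp hb) using 1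
    funext p
    refine Prod.ext ?_ rfl
    show toD K ((fs p)⁻¹ * ((sn p)⁻¹)⁻¹) = toD K ((sn p)⁻¹ * (fs p * (sn p)⁻¹)⁻¹ * ((sn p)⁻¹)⁻¹)
    congr 1
    group

/-- the embedding `k ↦ (k, 1)` -/
def emb (K : Type) [Group K] : Disc K →* EE K := MonoidHom.inl K K

/-- the extension `(a, b) ↦ a` -/
def FF (K : Type) [Group K] : EE K →* K := MonoidHom.fst K K

theorem semitop_id (hK : ∀ g : K, {x : K | x * g = g * x} ∈ 𝓝 (1 : K)) :
    IsSemitopological.{0} (discId K) := by
  refine ⟨continuous_of_discreteTopology, Function.surjective_id, EE K, inferInstance,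
    inferInstance, EE_topGroup hK, emb K, FF K, ?_, ?_, ?_, ?_, fun g => rfl⟩
  · refine ⟨?_, ?_⟩
    · have h : IsInducing (psi K ∘ emb K) := by
        have : (psi K ∘ emb K) = fun k : Disc K => (k, (1 : K)) := by
          funext k
          refine Prod.ext ?_ rfl
          show toD K (discId K k * (1 : K)⁻¹) = k
          rw [inv_one, mul_one]
          rfl
        rw [this]
        exact (isEmbedding_prodMkLeft (1 : K)).isInducing
      have hpsi : IsInducing (psi K) := ⟨rfl⟩
      exact (hpsi.of_comp_iff).1 h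
    · intro a b h
      exact congrArg Prod.fst h
  · refine ⟨?_⟩
    rintro _ ⟨n, rfl⟩ g
    refine ⟨toD K (fs g * discId K n * (fs g)⁻¹), ?_⟩
    refine Prod.ext rfl ?_
    show (1 : K) = sn g * 1 * (sn g)⁻¹
    simp
  · have h1 : Continuous (fun p : EE K => discId K ((psi K p).1) * sn p) := by
      have h2 : Continuous (discId K) := continuous_of_discreteTopology
      exact (h2.comp (continuous_fst.comp cont_psi)).mul sn_cont
    convert h1 using 1
    funext p
    show fs p = fs p * (sn p)⁻¹ * sn p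
    simp
  · have hpsi : IsOpenMap (psi K) := by
      have hemb : IsInducing (psi K) := ⟨rfl⟩
      exact (IsHomeomorph.isOpenMap
        (isHomeomorph_iff_isEmbedding_surjective.2 ⟨⟨hemb, psi_inj K⟩, psi_surj K⟩))
    have hm : IsOpenMap (fun p : Disc K × K => discId K p.1 * p.2) := by
      rw [isOpenMap_iff_nhds_le]
      rintro ⟨k, h⟩ V hV
      rw [mem_map, nhds_prod_eq, nhds_discrete, mem_prod_iff] at hV
      obtain ⟨A, hA, W, hW, hAW⟩ := hV
      rw [mem_pure] at hA
      have h1 : Tendsto (fun z : K => (discId K k)⁻¹ * z) (𝓝 (discId K k * h)) (𝓝 h) := by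
        have : Continuous (fun z : K => (discId K k)⁻¹ * z) := continuous_const.mul continuous_id
        have h2 := this.tendsto (discId K k * h)
        have h3 : (discId K k)⁻¹ * (discId K k * h) = h := inv_mul_cancel_left _ _
        rwa [h3] at h2
      filter_upwards [h1 hW] with z hz
      have := hAW (Set.mk_mem_prod hA hz)
      have h4 : discId K k * ((discId K k)⁻¹ * z) = z := mul_inv_cancel_left _ _
      have h5 : discId K k * ((discId K k)⁻¹ * z) ∈ V := this
      rwa [h4] at h5
    have := hm.comp hpsi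
    convert this using 1
    funext p
    show fs p = fs p * (sn p)⁻¹ * sn p
    simp

end

/-! ### the composition is not semitopological -/

section

variable {K : Type} [Group K] [TopologicalSpace K] [IsTopologicalGroup K]

/-- the wreath product of `ZMod 2` with `K`, discrete -/
abbrev GG (K : Type) [Group K] : Type := Disc (Multiplicative (ZMod 2) ≀ᵣ K)

/-- the projection to `K`, discrete -/
def pr (K : Type) [Group K] : GG K →* Disc K :=
  (RegularWreathProduct.rightHom : (Multiplicative (ZMod 2) ≀ᵣ K) →* K)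

open Classical in
/-- the indicator function -/
noncomputable def ind (B : Subgroup K) : K → Multiplicative (ZMod 2) := fun x =>
  if x ∈ B then Multiplicative.ofAdd 1 else 1

theorem ind_ne : (Multiplicative.ofAdd (1 : ZMod 2)) ≠ 1 := by decide

omit [IsTopologicalGroup K] in
theorem not_semitop (B : Subgroup K)
    (hB : ∀ W ∈ 𝓝 (1 : K), ∃ h ∈ W, ∃ s ∈ B, h * s * h⁻¹ ∉ B) :
    ¬ IsSemitopological.{v} ((discId K).comp (pr K)) := by
  rintro ⟨-, -, E, _, _, _, i, F, hi, hn, -, hFo, hFi⟩
  have hN := hn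
  set nu : GG K := (⟨ind B, 1⟩ : Multiplicative (ZMod 2) ≀ᵣ K) with hnu
  -- the centralizer of `i nu` is open
  obtain ⟨U, hU, hUi⟩ : ∃ U : Set E, IsOpen U ∧ i ⁻¹' U = {nu} := by
    have := (hi.isInducing.isOpen_iff (s := ({nu} : Set (GG K)))).1 (isOpen_discrete _)
    exact this
  set C : Set E := {c | c * i nu * c⁻¹ ∈ U} with hC
  have hCo : IsOpen C := by
    have : Continuous (fun c : E => c * i nu * c⁻¹) := by fun_prop
    exact hU.preimage this
  have hCmem : ∀ c ∈ C, c * i nu * c⁻¹ = i nu := by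
    intro c hc
    obtain ⟨g, hg⟩ := hN.conj_mem (i nu) ⟨nu, rfl⟩ c
    have h1 : g ∈ i ⁻¹' U := by
      show i g ∈ U
      rw [hg]; exact hc
    rw [hUi] at h1
    rw [← hg, h1]
  have h1C : (1 : E) ∈ C := by
    have h0 : nu ∈ i ⁻¹' U := by rw [hUi]; rfl
    have h1 : i nu ∈ U := h0
    show 1 * i nu * 1⁻¹ ∈ U
    rwa [one_mul, inv_one, mul_one]
  have hW : F '' C ∈ 𝓝 (1 : K) := by
    have := hFo.image_mem_nhds (hCo.mem_nhds h1C)
    rwa [map_one] at this
  obtain ⟨h, ⟨c, hc, hch⟩, s, hs, hsB⟩ := hB _ hW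
  apply hsB
  have hc' := hCmem c hc
  set x : GG K := (⟨1, h⟩ : Multiplicative (ZMod 2) ≀ᵣ K) with hx
  set y : GG K := (⟨1, s⟩ : Multiplicative (ZMod 2) ≀ᵣ K) with hy
  set m : E := (i x)⁻¹ * c with hm
  have hFm : F m = 1 := by
    rw [hm, map_mul, map_inv, hFi, hch]
    show h⁻¹ * h = 1
    simp
  -- conjugation of `nu` by `m`
  have hmnu : m * i nu * m⁻¹ = i (x⁻¹ * nu * x) := by
    rw [hm, map_mul, map_mul, map_inv]
    calc (i x)⁻¹ * c * i nu * ((i x)⁻¹ * c)⁻¹ = (i x)⁻¹ * (c * i nu * c⁻¹) * i x := by group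
      _ = _ := by rw [hc']
  -- `y` commutes with `nu`
  have hyn : y * nu = nu * y := by
    refine RegularWreathProduct.ext ?_ ?_
    · funext z
      show (1 : Multiplicative (ZMod 2)) * ind B (s⁻¹ * z) = ind B z * 1
      rw [one_mul, mul_one]
      have h0 : s⁻¹ * z ∈ B ↔ z ∈ B := B.mul_mem_cancel_left (B.inv_mem hs)
      by_cases hz : z ∈ B
      · have e1 : ind B (s⁻¹ * z) = Multiplicative.ofAdd 1 := if_pos (h0.2 hz)
        have e2 : ind B z = Multiplicative.ofAdd 1 := if_pos hz
        rw [e1, e2]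
      · have e1 : ind B (s⁻¹ * z) = 1 := if_neg (fun h => hz (h0.1 h))
        have e2 : ind B z = 1 := if_neg hz
        rw [e1, e2]
    · show s * 1 = 1 * s
      simp
  obtain ⟨y', hy'⟩ := hN.conj_mem (i y) ⟨y, rfl⟩ m
  have hy's : (y' : Multiplicative (ZMod 2) ≀ᵣ K).right = s := by
    have h1 : F (i y') = s := by
      rw [hy', map_mul, map_mul, hFm, map_inv, hFm, hFi]
      show 1 * s * 1⁻¹ = s
      simp
    rw [hFi] at h1
    exact h1
  have hcomm : y' * (x⁻¹ * nu * x) = (x⁻¹ * nu * x) * y' := by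
    apply hi.injective
    rw [map_mul, map_mul i (x⁻¹ * nu * x) y', ← hmnu, hy']
    have h1 : i y * i nu = i nu * i y := by rw [← map_mul, ← map_mul, hyn]
    calc m * i y * m⁻¹ * (m * i nu * m⁻¹) = m * (i y * i nu) * m⁻¹ := by group
      _ = m * (i nu * i y) * m⁻¹ := by rw [h1]
      _ = _ := by group
  have hleft := congrArg (fun g : GG K =>
    (g : Multiplicative (ZMod 2) ≀ᵣ K).left (h⁻¹ * 1)) hcomm
  have hnu1 : (x⁻¹ * nu * x : GG K) = (⟨fun z => ind B (h * z), 1⟩ : Multiplicative (ZMod 2) ≀ᵣ K) := by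
    refine RegularWreathProduct.ext ?_ ?_
    · funext z
      show (1 : Multiplicative (ZMod 2))⁻¹ * ind B ((h⁻¹)⁻¹ * z) * 1 = ind B (h * z)
      simp
    · show h⁻¹ * 1 * h = 1
      simp
  rw [hnu1] at hleft
  have h2 : (y' : Multiplicative (ZMod 2) ≀ᵣ K).left (h⁻¹ * 1) *
      ind B (h * ((y' : Multiplicative (ZMod 2) ≀ᵣ K).right⁻¹ * (h⁻¹ * 1)))
      = ind B (h * (h⁻¹ * 1)) * (y' : Multiplicative (ZMod 2) ≀ᵣ K).left (1⁻¹ * (h⁻¹ * 1)) := hleft
  rw [hy's, inv_one, one_mul, mul_comm] at h2
  have h3 := mul_right_cancel h2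
  rw [mul_one, mul_inv_cancel] at h3
  have h4 : h * (s⁻¹ * h⁻¹) ∈ B := by
    by_contra hcon
    have h5 : ind B (h * (s⁻¹ * h⁻¹)) = 1 := if_neg hcon
    have h6 : ind B (1 : K) = Multiplicative.ofAdd 1 := if_pos B.one_mem
    rw [h5, h6] at h3
    exact ind_ne h3.symm
  have h7 := B.inv_mem h4
  have h8 : (h * (s⁻¹ * h⁻¹))⁻¹ = h * s * h⁻¹ := by group
  rwa [h8] at h7

end

/-! ### the group `K` -/

/-- the symmetric group on three points (discrete) -/
def P : Type := Equiv.Perm (Fin 3)

instance : Group P := inferInstanceAs (Group (Equiv.Perm (Fin 3)))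
instance : TopologicalSpace P := ⊥
instance : DiscreteTopology P := ⟨rfl⟩

/-- the action on points -/
def ap (p : P) (x : Fin 3) : Fin 3 := (show Equiv.Perm (Fin 3) from p) x

theorem ap_mul (p q : P) (x : Fin 3) : ap (p * q) x = ap p (ap q x) := rfl

theorem ap_one (x : Fin 3) : ap 1 x = x := rfl

/-- transposition of 0 and 1 -/
def p01 : P := (Equiv.swap (0 : Fin 3) 1)

/-- transposition of 1 and 2 -/
def p12 : P := (Equiv.swap (1 : Fin 3) 2)

theorem ap_conj : ap (p01 * p12 * p01⁻¹) 0 ≠ 0 := by
  show ¬ ((Equiv.swap (0 : Fin 3) 1 * Equiv.swap (1 : Fin 3) 2 * (Equiv.swap (0 : Fin 3) 1)⁻¹ :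
      Equiv.Perm (Fin 3)) 0 = 0)
  decide

theorem ap_p12 : ap p12 0 = 0 := by
  show (Equiv.swap (1 : Fin 3) 2 : Equiv.Perm (Fin 3)) 0 = 0
  decide

/-- the finitely supported sequences in the symmetric group -/
def K0 : Subgroup (ℕ → P) where
  carrier := {k | {j | k j ≠ 1}.Finite}
  one_mem' := by simp
  mul_mem' := by
    intro a b ha hb
    refine (Set.Finite.union ha hb).subset ?_
    intro j hj
    by_contra hcon
    simp only [Set.mem_union, Set.mem_ofPred_eq, not_or, not_not] at hcon
    apply hj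
    show a j * b j = 1
    rw [hcon.1, hcon.2, one_mul]
  inv_mem' := by
    intro a ha
    refine Set.Finite.subset ha ?_
    intro j hj hcon
    apply hj
    show (a j)⁻¹ = 1
    rw [hcon, inv_one]

theorem nhd (W : Set K0) (hW : W ∈ 𝓝 (1 : K0)) :
    ∃ F : Set ℕ, F.Finite ∧ ∀ k : K0, (∀ j ∈ F, k.1 j = 1) → k ∈ W := by
  rw [nhds_subtype, mem_comap] at hW
  obtain ⟨T, hT, hTW⟩ := hW
  rw [nhds_pi, Filter.mem_pi] at hT
  obtain ⟨F, hF, t, ht, htT⟩ := hT
  refine ⟨F, hF, fun h hh => hTW (htT ?_)⟩
  intro i hi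
  rw [hh i hi]
  exact mem_of_mem_nhds (ht i)

theorem nhd_of (F : Set ℕ) (hF : F.Finite) : {k : K0 | ∀ j ∈ F, k.1 j = 1} ∈ 𝓝 (1 : K0) := by
  have : {k : K0 | ∀ j ∈ F, k.1 j = 1} = ⋂ j ∈ F, {k : K0 | k.1 j = 1} := by
    ext k; simp
  rw [this, Filter.biInter_mem hF]
  intro j _
  have hc : Continuous (fun k : K0 => k.1 j) := (continuous_apply j).comp continuous_subtype_val
  exact (isOpen_discrete ({1} : Set P)).preimage hc |>.mem_nhds rfl

theorem cent (g : K0) : {x : K0 | x * g = g * x} ∈ 𝓝 (1 : K0) := by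
  refine mem_of_superset (nhd_of _ g.2) ?_
  intro x hx
  apply Subtype.ext
  funext j
  show x.1 j * g.1 j = g.1 j * x.1 j
  by_cases hj : g.1 j = 1
  · rw [hj, one_mul, mul_one]
  · rw [hx j hj, one_mul, mul_one]

/-- the stabilizer -/
def B0 : Subgroup K0 where
  carrier := {k | ∀ j, ap (k.1 j) 0 = 0}
  one_mem' := fun j => rfl
  mul_mem' := by
    intro a b ha hb j
    show ap (a.1 j * b.1 j) 0 = 0
    rw [ap_mul, hb j, ha j]
  inv_mem' := by
    intro a ha j
    show ap ((a.1 j)⁻¹) 0 = 0
    have h1 : ap ((a.1 j)⁻¹ * a.1 j) 0 = 0 := by rw [inv_mul_cancel]; rfl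
    rw [ap_mul, ha j] at h1
    exact h1

/-- an element supported at one place -/
def single (n : ℕ) (p : P) : K0 := ⟨fun j => if j = n then p else 1, by
  refine (Set.finite_singleton n).subset ?_
  intro j hj
  by_contra hcon
  apply hj
  exact if_neg hcon⟩

theorem single_ne (n j : ℕ) (p : P) (h : j ≠ n) : (single n p).1 j = 1 := if_neg h

theorem single_eq (n : ℕ) (p : P) : (single n p).1 n = p := if_pos rfl

theorem B0_prop (W : Set K0) (hW : W ∈ 𝓝 (1 : K0)) : ∃ h ∈ W, ∃ s ∈ B0, h * s * h⁻¹ ∉ B0 := by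
  obtain ⟨F, hF, hFW⟩ := nhd W hW
  obtain ⟨n, hn⟩ := hF.exists_notMem
  refine ⟨single n p01, hFW _ ?_, single n p12, ?_, ?_⟩
  · intro j hj
    apply single_ne
    rintro rfl
    exact hn hj
  · show ∀ j, ap ((single n p12).1 j) 0 = 0
    intro j
    by_cases hj : j = n
    · subst hj
      rw [single_eq, ap_p12]
    · rw [single_ne n j _ hj]
      rfl
  · intro hcon
    have h1 : ∀ j, ap ((single n p01 * single n p12 * (single n p01)⁻¹).1 j) 0 = 0 := hcon
    have h2 : ap ((single n p01).1 n * (single n p12).1 n * ((single n p01).1 n)⁻¹) 0 = 0 := h1 n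
    rw [single_eq, single_eq] at h2
    exact ap_conj h2

end Pool.Agent.X194.ST
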